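import Pool.Agent.R688.HK.Len

set_option autoImplicit false

/-!
# Local rings with `z ^ p = x ^ (p + 1) + y ^ (p + 1)`
-/

open IsLocalRing Filter Topology

namespace Pool.Agent.R688.HK

/-- the situation -/
structure Sit (A : Type) [CommRing A] [IsLocalRing A] (p : ℕ) where
  x : A
  y : A
  z : A
  reg : Reg2 x y
  hm : maximalIdeal A = I2 x y ⊔ Ideal.span {z}
  hz : z ^ p = x ^ (p + 1) + y ^ (p + 1)
  hnot : z ^ (p - 1) ∉ I2 x y

variable {A : Type} [CommRing A] [IsLocalRing A] {p : ℕ}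

namespace Sit

variable (T : Sit A p)

/-- the ideal `(x, y)` -/
def I : Ideal A := I2 T.x T.y

theorem x_mem : T.x ∈ T.I := Ideal.mem_sup_left (Ideal.mem_span_singleton_self _)
theorem y_mem : T.y ∈ T.I := Ideal.mem_sup_right (Ideal.mem_span_singleton_self _)
theorem I_le : T.I ≤ maximalIdeal A := by rw [T.hm]; exact le_sup_left
theorem z_mem : T.z ∈ maximalIdeal A := by
  rw [T.hm]; exact Ideal.mem_sup_right (Ideal.mem_span_singleton_self _)

theorem zp_mem : T.z ^ p ∈ T.I := by
  rw [T.hz]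
  exact Ideal.add_mem _ (Ideal.pow_mem_of_mem _ T.x_mem _ (Nat.succ_pos _))
    (Ideal.pow_mem_of_mem _ T.y_mem _ (Nat.succ_pos _))

theorem z_notMem {i : ℕ} (hi : i < p) : T.z ^ i ∉ T.I := by
  intro h
  apply T.hnot
  have : p - 1 = i + (p - 1 - i) := by omega
  rw [this, pow_add]
  exact Ideal.mul_mem_right _ _ h

/-- the ideal `(x, y, z ^ i)` -/
def J (i : ℕ) : Ideal A := T.I ⊔ Ideal.span {T.z ^ i}

/-- every element is a unit times a power of `z` modulo `(x, y)` -/
theorem exists_unit (a : A) : a ∈ T.I ∨ ∃ i < p, ∃ u, IsUnit u ∧ a - u * T.z ^ i ∈ T.I := by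
  -- `a ∈ (x, y, z ^ i)` for the largest `i`
  have key : ∀ i ≤ p, a ∈ T.J i ∨ ∃ j < i, ∃ u, IsUnit u ∧ a - u * T.z ^ j ∈ T.I := by
    intro i
    induction i with
    | zero =>
      intro _
      left
      unfold J
      rw [pow_zero, Ideal.span_singleton_one]
      exact Ideal.mem_sup_right trivial
    | succ i ih =>
      intro hi
      rcases ih (by omega) with h | ⟨j, hj, u, hu⟩
      · obtain ⟨b, hb, c, hc, rfl⟩ := Submodule.mem_sup.1 h
        obtain ⟨d, rfl⟩ := Ideal.mem_span_singleton.1 hc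
        by_cases hd : IsUnit d
        · right
          refine ⟨i, Nat.lt_succ_self i, d, hd, ?_⟩
          have : b + T.z ^ i * d - d * T.z ^ i = b := by ring
          rw [this]
          exact hb
        · left
          have h1 : d ∈ maximalIdeal A := hd
          rw [T.hm] at h1
          obtain ⟨e, he, f, hf, rfl⟩ := Submodule.mem_sup.1 h1
          obtain ⟨g, rfl⟩ := Ideal.mem_span_singleton.1 hf
          have h2 : b + T.z ^ i * (e + T.z * g) = (b + T.z ^ i * e) + T.z ^ (i + 1) * g := by ring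
          rw [h2]
          exact Ideal.add_mem _ (Ideal.mem_sup_left (Ideal.add_mem _ hb (Ideal.mul_mem_left _ _ he)))
            (Ideal.mem_sup_right (Ideal.mul_mem_right _ _ (Ideal.mem_span_singleton_self _)))
      · exact Or.inr ⟨j, by omega, u, hu⟩
  rcases key p le_rfl with h | h
  · left
    unfold J at h
    rwa [sup_eq_left.2 ((Ideal.span_singleton_le_iff_mem _).2 T.zp_mem)] at h
  · exact Or.inr h

theorem z_notMem_J {i : ℕ} (hi : i < p) : T.z ^ i ∉ T.J (i + 1) := by
  intro h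
  obtain ⟨b, hb, c, hc, hbc⟩ := Submodule.mem_sup.1 h
  obtain ⟨d, rfl⟩ := Ideal.mem_span_singleton.1 hc
  have h1 : T.z ^ i * (1 - T.z * d) ∈ T.I := by
    have : T.z ^ i * (1 - T.z * d) = b := by linear_combination - hbc
    rw [this]
    exact hb
  have hu : IsUnit (1 - T.z * d) := by
    by_contra hnu
    have h2 : 1 - T.z * d ∈ maximalIdeal A := hnu
    have h3 := Ideal.add_mem _ h2 (Ideal.mul_mem_right d _ T.z_mem)
    rw [sub_add_cancel] at h3
    exact (Ideal.ne_top_iff_one _).1 (maximalIdeal.isMaximal A).ne_top h3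
  rw [mul_comm, Ideal.unit_mul_mem_iff_mem _ hu] at h1
  exact T.z_notMem hi h1

theorem len_max : len (maximalIdeal A) = 1 := by
  unfold len
  rw [Module.length_eq_one_iff, isSimpleModule_iff_isCoatom, ← Ideal.isMaximal_def]
  exact maximalIdeal.isMaximal A

theorem len_J (i : ℕ) (hi : i ≤ p) : len (T.J i) = i := by
  induction i with
  | zero =>
    have : T.J 0 = ⊤ := by
      unfold J
      rw [pow_zero, Ideal.span_singleton_one, sup_top_eq]
    rw [this, len_top]; simp
  | succ i ih =>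
    rw [len_eq (T.J (i + 1)) (maximalIdeal A) (T.z ^ i), len_max]
    · have h1 : T.J (i + 1) ⊔ Ideal.span {T.z ^ i} = T.J i := by
        unfold J
        rw [sup_assoc]
        congr 1
        rw [sup_eq_right, Ideal.span_singleton_le_span_singleton, pow_succ]
        exact Dvd.intro _ rfl
      rw [h1, ih (by omega)]
      push_cast
      ring
    · intro a
      constructor
      · intro ha
        rw [T.hm] at ha
        obtain ⟨b, hb, c, hc, rfl⟩ := Submodule.mem_sup.1 ha
        obtain ⟨d, rfl⟩ := Ideal.mem_span_singleton.1 hc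
        have : T.z ^ i * (b + T.z * d) = T.z ^ i * b + T.z ^ (i + 1) * d := by ring
        rw [this]
        exact Ideal.add_mem _ (Ideal.mem_sup_left (Ideal.mul_mem_left _ _ hb))
          (Ideal.mem_sup_right (Ideal.mul_mem_right _ _ (Ideal.mem_span_singleton_self _)))
      · intro ha
        by_contra hna
        have hu : IsUnit a := by
          by_contra h; exact hna h
        rw [mul_comm, Ideal.unit_mul_mem_iff_mem _ hu] at ha
        exact T.z_notMem_J (by omega) ha

theorem len_I : len T.I = p := by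
  have h := T.len_J p le_rfl
  unfold J at h
  rwa [sup_eq_left.2 ((Ideal.span_singleton_le_iff_mem _).2 T.zp_mem)] at h

/-- `m ^ (n + p - 1) ≤ (x, y) ^ n` for `p ≥ 1` -/
theorem pow_le (q : ℕ) (hq : p = q + 1) (n : ℕ) : maximalIdeal A ^ (n + q) ≤ T.I ^ n := by
  have h1 : maximalIdeal A ^ (q + 1) ≤ T.I * maximalIdeal A ^ q := by
    have h2 : ∀ k : ℕ, maximalIdeal A ^ (k + 1) ≤
        T.I * maximalIdeal A ^ k ⊔ Ideal.span {T.z ^ (k + 1)} := by
      intro k
      induction k with
      | zero =>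
        rw [pow_zero, Ideal.one_eq_top, Ideal.mul_top, zero_add, pow_one, pow_one, T.hm]
        exact le_rfl
      | succ k ih =>
        rw [pow_succ]
        refine (Ideal.mul_mono_left ih).trans ?_
        rw [Ideal.sup_mul]
        refine sup_le ?_ ?_
        · rw [mul_assoc, ← pow_succ]
          exact le_sup_left
        · conv_lhs => rw [T.hm]
          rw [Ideal.mul_sup]
          refine sup_le ?_ ?_
          · refine le_sup_of_le_left ?_
            rw [mul_comm]
            refine Ideal.mul_mono_right ?_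
            rw [Ideal.span_singleton_le_iff_mem]
            exact Ideal.pow_mem_pow T.z_mem _
          · refine le_sup_of_le_right ?_
            rw [Ideal.span_singleton_mul_span_singleton, ← pow_succ]
    refine (h2 q).trans (sup_le le_rfl ?_)
    rw [Ideal.span_singleton_le_iff_mem, ← hq, T.hz, pow_succ' T.x, pow_succ' T.y]
    have hqp : q ≤ p := by omega
    exact Ideal.add_mem _
      (Ideal.mul_mem_mul T.x_mem (Ideal.pow_le_pow_right hqp (Ideal.pow_mem_pow (T.I_le T.x_mem) _)))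
      (Ideal.mul_mem_mul T.y_mem (Ideal.pow_le_pow_right hqp (Ideal.pow_mem_pow (T.I_le T.y_mem) _)))
  have h2 : ∀ n : ℕ, maximalIdeal A ^ (n + q) ≤ T.I ^ n * maximalIdeal A ^ q := by
    intro n
    induction n with
    | zero => rw [zero_add, pow_zero, Ideal.one_eq_top, Ideal.top_mul]
    | succ n ih =>
      calc maximalIdeal A ^ (n + 1 + q) = maximalIdeal A ^ (n + q) * maximalIdeal A := by
            rw [← pow_succ]; congr 1; omega
        _ ≤ T.I ^ n * maximalIdeal A ^ q * maximalIdeal A := Ideal.mul_mono_left ih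
        _ = T.I ^ n * maximalIdeal A ^ (q + 1) := by rw [mul_assoc, ← pow_succ]
        _ ≤ T.I ^ n * (T.I * maximalIdeal A ^ q) := Ideal.mul_mono_right h1
        _ = T.I ^ (n + 1) * maximalIdeal A ^ q := by rw [← mul_assoc, ← pow_succ]
  exact (h2 n).trans Ideal.mul_le_left

theorem toNat_I (n : ℕ) : 2 * (len (T.I ^ n)).toNat = n * (n + 1) * p := by
  have h := T.reg.len_pow n
  have h2 : len (I2 T.x T.y) = (p : ℕ∞) := T.len_I
  rw [h2] at h
  have h3 : ((2 * (len (T.I ^ n)).toNat : ℕ) : ℕ∞) = ((n * (n + 1) * p : ℕ) : ℕ∞) := by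
    have hne : len (T.I ^ n) ≠ ⊤ := by
      intro htop
      change 2 * len (T.I ^ n) = _ at h
      rw [htop] at h
      have h4 : (2 : ℕ∞) * ⊤ = ⊤ := by decide
      rw [h4] at h
      have h5 : ((n : ℕ∞) * (n + 1) * p) = ((n * (n + 1) * p : ℕ) : ℕ∞) := by push_cast; rfl
      rw [h5] at h
      exact ENat.natCast_ne_top _ h.symm
    push_cast
    rw [ENat.natCast_toNat hne]
    exact h
  exact_mod_cast h3

include T in
theorem mult (hp : 1 ≤ p) : IsMult A 2 p := by
  obtain ⟨q, hq⟩ : ∃ q, p = q + 1 := ⟨p - 1, by omega⟩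
  unfold IsMult
  -- upper bound
  have hfin : ∀ n, len (T.I ^ n) ≠ ⊤ := by
    intro n htop
    have h := T.reg.len_pow n
    have h2 : len (I2 T.x T.y) = (p : ℕ∞) := T.len_I
    rw [h2] at h
    change 2 * len (T.I ^ n) = _ at h
    rw [htop] at h
    have h4 : (2 : ℕ∞) * ⊤ = ⊤ := by decide
    rw [h4] at h
    have h5 : ((n : ℕ∞) * (n + 1) * p) = ((n * (n + 1) * p : ℕ) : ℕ∞) := by push_cast; rfl
    rw [h5] at h
    exact ENat.natCast_ne_top _ h.symm
  have hub : ∀ n, (len (maximalIdeal A ^ n)).toNat ≤ (len (T.I ^ n)).toNat := fun n =>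
    ENat.toNat_le_toNat (len_anti (Ideal.pow_right_mono T.I_le n)) (hfin n)
  have hlb : ∀ n, (len (T.I ^ n)).toNat ≤ (len (maximalIdeal A ^ (n + q))).toNat := fun n =>
    ENat.toNat_le_toNat (len_anti (T.pow_le q hq n)) (by
      have h1 := len_anti (Ideal.pow_right_mono T.I_le (n + q))
      intro h2
      rw [h2, top_le_iff] at h1
      exact hfin _ h1)
  have h1 : ∀ n : ℕ, (2 : ℝ) * (len (T.I ^ n)).toNat = n * (n + 1) * p := by
    intro n
    exact_mod_cast T.toNat_I n
  have hup : ∀ n : ℕ, ((2).factorial : ℝ) * (len (maximalIdeal A ^ n)).toNat / (n : ℝ) ^ 2 ≤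
      n * (n + 1) * p / (n : ℝ) ^ 2 := by
    intro n
    have h2 : ((len (maximalIdeal A ^ n)).toNat : ℝ) ≤ (len (T.I ^ n)).toNat := by
      exact_mod_cast hub n
    have h3 := h1 n
    have h4 : ((2).factorial : ℝ) = 2 := by norm_num [Nat.factorial]
    rw [h4]
    apply div_le_div_of_nonneg_right _ (by positivity)
    linarith
  have hlow : ∀ n : ℕ, q ≤ n → ((n : ℝ) - q) * ((n : ℝ) - q + 1) * p / (n : ℝ) ^ 2 ≤
      ((2).factorial : ℝ) * (len (maximalIdeal A ^ n)).toNat / (n : ℝ) ^ 2 := by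
    intro n hn
    obtain ⟨m, rfl⟩ : ∃ m, n = m + q := ⟨n - q, by omega⟩
    have h2 : ((len (T.I ^ m)).toNat : ℝ) ≤ (len (maximalIdeal A ^ (m + q))).toNat := by
      exact_mod_cast hlb m
    have h3 := h1 m
    have h4 : ((2).factorial : ℝ) = 2 := by norm_num [Nat.factorial]
    rw [h4]
    apply div_le_div_of_nonneg_right _ (by positivity)
    push_cast
    have h5 : (m : ℝ) + q - q = m := by ring
    rw [h5]
    linarith
  have hlim1 : Tendsto (fun n : ℕ => (n : ℝ) * (n + 1) * p / (n : ℝ) ^ 2) atTop (𝓝 (p : ℝ)) := by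
    have h2 : Tendsto (fun n : ℕ => (1 + 1 / (n : ℝ)) * p) atTop (𝓝 ((1 + 0) * (p : ℝ))) :=
      ((tendsto_const_nhds.add tendsto_one_div_atTop_nhds_zero_nat)).mul tendsto_const_nhds
    rw [add_zero, one_mul] at h2
    refine h2.congr' ?_
    filter_upwards [eventually_ge_atTop 1] with n hn
    have : (n : ℝ) ≠ 0 := by positivity
    field_simp
  have hlim2 : Tendsto (fun n : ℕ => ((n : ℝ) - q) * ((n : ℝ) - q + 1) * p / (n : ℝ) ^ 2) atTop
      (𝓝 (p : ℝ)) := by
    have hz : Tendsto (fun n : ℕ => (q : ℝ) / (n : ℝ)) atTop (𝓝 0) :=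
      tendsto_const_div_atTop_nhds_zero_nat _
    have hz1 : Tendsto (fun n : ℕ => ((q : ℝ) - 1) / (n : ℝ)) atTop (𝓝 0) :=
      tendsto_const_div_atTop_nhds_zero_nat _
    have h2 : Tendsto (fun n : ℕ => (1 - (q : ℝ) / n) * (1 - ((q : ℝ) - 1) / n) * p) atTop
        (𝓝 ((1 - 0) * (1 - 0) * (p : ℝ))) :=
      ((tendsto_const_nhds.sub hz).mul (tendsto_const_nhds.sub hz1)).mul tendsto_const_nhds
    rw [sub_zero, one_mul, one_mul] at h2
    refine h2.congr' ?_
    filter_upwards [eventually_ge_atTop 1] with n hn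
    have : (n : ℝ) ≠ 0 := by positivity
    field_simp
    ring
  refine tendsto_of_tendsto_of_tendsto_of_le_of_le' hlim2 hlim1 ?_ ?_
  · filter_upwards [eventually_ge_atTop q] with n hn
    exact hlow n hn
  · exact Eventually.of_forall hup

/-- `z ^ q` is in `(x ^ q, y ^ q)` -/
theorem z_pow_mem [ExpChar A p] [hpp : Fact p.Prime] (e : ℕ) (he : 1 ≤ e) :
    T.z ^ p ^ e ∈ Ideal.span {T.x ^ p ^ e} ⊔ Ideal.span {T.y ^ p ^ e} := by
  obtain ⟨f, rfl⟩ : ∃ f, e = f + 1 := ⟨e - 1, by omega⟩
  have h1 : T.z ^ p ^ (f + 1) = (T.x ^ (p + 1)) ^ p ^ f + (T.y ^ (p + 1)) ^ p ^ f := by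
    rw [pow_succ', pow_mul, T.hz, add_pow_expChar_pow]
  have h2 : (p + 1) * p ^ f = p ^ (f + 1) + p ^ f := by ring
  have h3 : ∀ w : A, w ^ (p ^ (f + 1) + p ^ f) = w ^ p ^ (f + 1) * w ^ p ^ f :=
    fun w => pow_add _ _ _
  rw [h1, ← pow_mul, ← pow_mul, h2, h3, h3]
  exact Ideal.add_mem _
    (Ideal.mem_sup_left (Ideal.mul_mem_right _ _ (Ideal.mem_span_singleton_self _)))
    (Ideal.mem_sup_right (Ideal.mul_mem_right _ _ (Ideal.mem_span_singleton_self _)))

theorem map_frob [ExpChar A p] [hpp : Fact p.Prime] (e : ℕ) (he : 1 ≤ e) :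
    (maximalIdeal A).map (iterateFrobenius A p e) =
      Ideal.span {T.x ^ p ^ e} ⊔ Ideal.span {T.y ^ p ^ e} := by
  conv_lhs => rw [T.hm]
  unfold I2
  rw [Ideal.map_sup, Ideal.map_sup, Ideal.map_span, Ideal.map_span, Ideal.map_span,
    Set.image_singleton, Set.image_singleton, Set.image_singleton, iterateFrobenius_def,
    iterateFrobenius_def, iterateFrobenius_def, sup_eq_left, Ideal.span_singleton_le_iff_mem]
  exact T.z_pow_mem e he

include T in
theorem hk [ExpChar A p] [hpp : Fact p.Prime] : IsHKMult A p 2 p := by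
  unfold IsHKMult
  refine tendsto_const_nhds.congr' ?_
  filter_upwards [eventually_ge_atTop 1] with e he
  rw [T.map_frob e he]
  have h1 : len (Ideal.span {T.x ^ p ^ e} ⊔ Ideal.span {T.y ^ p ^ e}) =
      ((p ^ e * (p ^ e * p) : ℕ) : ℕ∞) := by
    rw [T.reg.len_xy]
    have h2 : len (Ideal.span {T.x} ⊔ Ideal.span {T.y}) = (p : ℕ∞) := T.len_I
    rw [h2]
    push_cast
    rfl
  have h3 : (Module.length A (A ⧸ (Ideal.span {T.x ^ p ^ e} ⊔ Ideal.span {T.y ^ p ^ e}))).toNat =
      p ^ e * (p ^ e * p) := by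
    change (len _).toNat = _
    rw [h1, ENat.toNat_natCast]
  rw [h3]
  have hp0 : (p : ℝ) ≠ 0 := by exact_mod_cast hpp.out.ne_zero
  push_cast
  field_simp

include T in
theorem frank_eq_zero [ExpChar A p] [hpp : Fact p.Prime] (e : ℕ) (he : 1 ≤ e) :
    frank A p e = 0 := by
  have h : {a : ℕ | ∃ φ : FrobPush A p e →ₗ[A] (Fin a → A), Function.Surjective φ} ⊆ {0} := by
    rintro a ⟨φ, hφ⟩
    by_contra ha
    have ha : a ≠ 0 := ha
    obtain ⟨c, hc⟩ := hφ (fun _ => 1)
    let i : Fin a := ⟨0, Nat.pos_of_ne_zero ha⟩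
    let ψ : FrobPush A p e →ₗ[A] A := (LinearMap.proj i).comp φ
    have hψ : ψ c = 1 := by
      change φ c i = 1
      rw [hc]
    have hmem : (T.z ^ (p - 1)) ^ p ^ e ∈
        Ideal.span {T.x ^ p ^ e} ⊔ Ideal.span {T.y ^ p ^ e} := by
      have h1 : (T.z ^ (p - 1)) ^ p ^ e = (T.z ^ p ^ e) ^ (p - 1) := by
        rw [← pow_mul, ← pow_mul, mul_comm]
      rw [h1]
      exact Ideal.pow_mem_of_mem _ (T.z_pow_mem e he) _ (by have := hpp.out.two_le; omega)
    obtain ⟨u, v, huv⟩ := mem_pair.1 hmem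
    let c' : A := c
    let uc : FrobPush A p e := (u * c' : A)
    let vc : FrobPush A p e := (v * c' : A)
    have h2 : ψ ((T.z ^ (p - 1)) • c) = T.x * ψ uc + T.y * ψ vc := by
      have h3 : (T.z ^ (p - 1)) • c = T.x • uc + T.y • vc := by
        have h4 : ((T.z ^ (p - 1)) ^ p ^ e * c' : A) =
            T.x ^ p ^ e * (u * c') + T.y ^ p ^ e * (v * c') := by
          rw [huv]
          ring
        change (iterateFrobenius A p e (T.z ^ (p - 1))) * c' =
          (iterateFrobenius A p e T.x) * (u * c') + (iterateFrobenius A p e T.y) * (v * c')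
        rw [iterateFrobenius_def, iterateFrobenius_def, iterateFrobenius_def]
        exact h4
      rw [h3, map_add, map_smul, map_smul, smul_eq_mul, smul_eq_mul]
    rw [map_smul, hψ, smul_eq_mul, mul_one] at h2
    apply T.hnot
    rw [h2]
    exact Ideal.add_mem _ (Ideal.mul_mem_right _ _ T.x_mem) (Ideal.mul_mem_right _ _ T.y_mem)
  unfold frank
  rcases Set.subset_singleton_iff_eq.1 h with h1 | h1
  · rw [h1]; simp
  · rw [h1]; simp

include T in
theorem fsig [ExpChar A p] [hpp : Fact p.Prime] [ExpChar (ResidueField A) p]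
    (hα : Module.finrank (ResidueField A) (FrobPush (ResidueField A) p 1) = 1) :
    IsFSig A p 2 0 := by
  refine ⟨0, by rw [hα, pow_zero], ?_⟩
  refine tendsto_const_nhds.congr' ?_
  filter_upwards [eventually_ge_atTop 1] with e he
  rw [T.frank_eq_zero e he]
  simp

end Sit

end Pool.Agent.R688.HK
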