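import Pool.Agent.R688.HK.Abs

set_option autoImplicit false

/-!
# Local rings with `z ^ p = x ^ (p + 1) + y ^ (p + 1)`: dimension and Gorenstein property
-/

open IsLocalRing
open scoped Pointwise

namespace Pool.Agent.R688.HK

variable {A : Type} [CommRing A] [IsLocalRing A] {p : ℕ}

namespace Sit

variable (T : Sit A p)

theorem I_ne_top : T.I ≠ ⊤ := fun h =>
  (maximalIdeal.isMaximal A).ne_top (top_le_iff.1 (h ▸ T.I_le))

include T in
theorem dim_le [IsNoetherianRing A] : ringKrullDim A ≤ 2 := by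
  rw [← IsLocalRing.maximalIdeal_height_eq_ringKrullDim]
  have h1 : maximalIdeal A ∈ (Ideal.span ({T.x, T.y} : Set A)).minimalPrimes := by
    have e : Ideal.span ({T.x, T.y} : Set A) = T.I := by
      rw [Ideal.span_insert]; rfl
    rw [e]
    refine ⟨⟨inferInstance, T.I_le⟩, ?_⟩
    rintro q ⟨hq, hIq⟩ -
    rw [T.hm]
    refine sup_le hIq ?_
    rw [Ideal.span_singleton_le_iff_mem]
    exact hq.mem_of_pow_mem p (hIq T.zp_mem)
  have h2 := Ideal.height_le_card_of_mem_minimalPrimes_span (Set.toFinite _) h1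
  have h3 : ({T.x, T.y} : Set A).ncard ≤ 2 :=
    (Set.ncard_insert_le _ _).trans (by rw [Set.ncard_singleton])
  have h4 : (maximalIdeal A).height ≤ (2 : ℕ) := h2.trans (by exact_mod_cast h3)
  exact (WithBot.coe_le_coe.2 h4)

include T in
theorem le_dim : 2 ≤ ringKrullDim A := by
  have hne := T.I_ne_top
  have hx : T.x ∈ nonZeroDivisors A := by
    rw [mem_nonZeroDivisors_iff_right]
    intro a ha
    exact T.reg.hx a (by rw [mul_comm]; exact ha)
  have h1 := ringKrullDim_succ_le_of_surjective (Ideal.Quotient.mk (Ideal.span {T.x}))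
    Ideal.Quotient.mk_surjective hx
    (Ideal.Quotient.eq_zero_iff_mem.2 (Ideal.mem_span_singleton_self _))
  have hy : Ideal.Quotient.mk (Ideal.span {T.x}) T.y ∈
      nonZeroDivisors (A ⧸ Ideal.span {T.x}) := by
    rw [mem_nonZeroDivisors_iff_right]
    intro a ha
    obtain ⟨a, rfl⟩ := Ideal.Quotient.mk_surjective a
    rw [← map_mul, Ideal.Quotient.eq_zero_iff_mem, mul_comm] at ha
    exact Ideal.Quotient.eq_zero_iff_mem.2 (T.reg.hy a ha)
  have h2 := ringKrullDim_succ_le_of_surjective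
    (Ideal.Quotient.factor (le_sup_left : Ideal.span {T.x} ≤ T.I))
    (Ideal.Quotient.factor_surjective _) hy (by
      rw [Ideal.Quotient.factor_mk, Ideal.Quotient.eq_zero_iff_mem]
      exact T.y_mem)
  have hnt : Nontrivial (A ⧸ T.I) := Ideal.Quotient.nontrivial_iff.2 hne
  have h3 : 0 ≤ ringKrullDim (A ⧸ T.I) := ringKrullDim_nonneg_of_nontrivial
  calc (2 : WithBot ℕ∞) = 0 + 1 + 1 := by norm_num
    _ ≤ ringKrullDim (A ⧸ T.I) + 1 + 1 := by gcongr
    _ ≤ ringKrullDim (A ⧸ Ideal.span {T.x}) + 1 := by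
        gcongr
        exact h2
    _ ≤ ringKrullDim A := h1

include T in
theorem dim_eq [IsNoetherianRing A] : ringKrullDim A = 2 := le_antisymm T.dim_le T.le_dim

include T in
theorem gor [IsNoetherianRing A] (hp : 1 ≤ p) : IsGor A := by
  have e : Ideal.ofList [T.x, T.y] = T.I := by
    rw [Ideal.ofList_cons, Ideal.ofList_singleton]; rfl
  refine ⟨[T.x, T.y], ?_, ?_, ?_, T.J (p - 1), ?_, ?_⟩
  · intro r hr
    rcases List.mem_pair.1 hr with rfl | rfl
    · exact T.I_le T.x_mem
    · exact T.I_le T.y_mem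
  · rw [RingTheory.Sequence.isWeaklyRegular_cons_iff]
    refine ⟨fun a b hab => ?_, ?_⟩
    · have h1 : T.x * (a - b) = 0 := by
        rw [mul_sub]; exact sub_eq_zero.2 hab
      exact sub_eq_zero.1 (T.reg.hx _ h1)
    · rw [RingTheory.Sequence.isWeaklyRegular_cons_iff]
      refine ⟨?_, RingTheory.Sequence.IsWeaklyRegular.nil _ _⟩
      intro a b hab
      obtain ⟨a, rfl⟩ := Submodule.Quotient.mk_surjective _ a
      obtain ⟨b, rfl⟩ := Submodule.Quotient.mk_surjective _ b
      have hmem : ∀ c : A, c ∈ (T.x • (⊤ : Submodule A A)) ↔ c ∈ Ideal.span {T.x} := by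
        intro c
        rw [Submodule.mem_smul_pointwise_iff_exists, Ideal.mem_span_singleton]
        constructor
        · rintro ⟨d, -, rfl⟩
          exact Dvd.intro _ rfl
        · rintro ⟨d, rfl⟩
          exact ⟨d, trivial, rfl⟩
      have h1 : (Submodule.Quotient.mk (T.y * a) : QuotSMulTop T.x A) =
          Submodule.Quotient.mk (T.y * b) := hab
      rw [Submodule.Quotient.eq, hmem, ← mul_sub] at h1
      rw [Submodule.Quotient.eq, hmem]
      exact T.reg.hy _ h1
  · rw [T.dim_eq]; rfl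
  · rw [e]
    refine lt_of_le_of_ne le_sup_left ?_
    intro h
    apply T.hnot
    have h1 : T.z ^ (p - 1) ∈ T.J (p - 1) :=
      Ideal.mem_sup_right (Ideal.mem_span_singleton_self _)
    rw [← h] at h1
    exact h1
  · intro K' hK'
    rw [e] at hK'
    obtain ⟨r, hrK, hrI⟩ := Set.exists_of_ssubset hK'
    refine sup_le hK'.le ?_
    rw [Ideal.span_singleton_le_iff_mem]
    rcases T.exists_unit r with h | ⟨i, hi, u, hu, h⟩
    · exact absurd h hrI
    · have h1 : u * T.z ^ i ∈ K' := by
        have h2 := K'.sub_mem hrK (hK'.le h)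
        rwa [sub_sub_cancel] at h2
      rw [Ideal.unit_mul_mem_iff_mem _ hu] at h1
      have h2 : p - 1 = i + (p - 1 - i) := by omega
      rw [h2, pow_add]
      exact Ideal.mul_mem_right _ _ h1

end Sit

end Pool.Agent.R688.HK
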