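import Pool.Agent.R688.HK.Abs2

set_option autoImplicit false

/-!
# The ring `𝔽_p[x, y, z] / (z ^ p - x ^ (p + 1) - y ^ (p + 1))`
-/

open IsLocalRing

namespace Pool.Agent.R688.HK

namespace Conc

variable (p : ℕ) [hpp : Fact p.Prime]

/-- `𝔽_p[x, y]` -/
abbrev B : Type := MvPolynomial (Fin 2) (ZMod p)

/-- `x ^ (p + 1) + y ^ (p + 1)` -/
noncomputable def g : B p := MvPolynomial.X 0 ^ (p + 1) + MvPolynomial.X 1 ^ (p + 1)

/-- `Z ^ p - g` -/
noncomputable def f : Polynomial (B p) := Polynomial.X ^ p - Polynomial.C (g p)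

/-- the ring -/
abbrev R : Type := AdjoinRoot (f p)

theorem f_monic : (f p).Monic := Polynomial.monic_X_pow_sub_C (g p) hpp.out.ne_zero

theorem not_pow (b : B p) : b ^ p ≠ g p := by
  intro h
  have h1 := congrArg (MvPolynomial.pderiv (0 : Fin 2)) h
  rw [Derivation.leibniz_pow, nsmul_eq_mul, CharP.cast_eq_zero, zero_mul] at h1
  unfold g at h1
  rw [map_add, Derivation.leibniz_pow, Derivation.leibniz_pow, MvPolynomial.pderiv_X_self,
    MvPolynomial.pderiv_X_of_ne (by decide), smul_zero, smul_zero, add_zero,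
    add_tsub_cancel_right, nsmul_eq_mul, Nat.cast_add, CharP.cast_eq_zero, zero_add, Nat.cast_one,
    one_mul, smul_eq_mul, mul_one] at h1
  exact pow_ne_zero p (MvPolynomial.X_ne_zero (R := ZMod p) (0 : Fin 2)) h1.symm

theorem f_irr : Irreducible (f p) := by
  rw [(f_monic p).irreducible_iff_irreducible_map_fraction_map (K := FractionRing (B p))]
  have h1 : (f p).map (algebraMap (B p) (FractionRing (B p))) =
      Polynomial.X ^ p - Polynomial.C (algebraMap (B p) (FractionRing (B p)) (g p)) := by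
    unfold f
    rw [Polynomial.map_sub, Polynomial.map_pow, Polynomial.map_X, Polynomial.map_C]
  rw [h1]
  refine X_pow_sub_C_irreducible_of_prime hpp.out ?_
  intro b hb
  obtain ⟨c, rfl⟩ := IsIntegrallyClosed.exists_algebraMap_eq_of_isIntegral_pow
    (R := B p) (K := FractionRing (B p)) hpp.out.pos (x := b) (by
      rw [hb]; exact isIntegral_algebraMap)
  rw [← map_pow] at hb
  exact not_pow p c (IsFractionRing.injective (B p) (FractionRing (B p)) hb)

instance : IsDomain (R p) := AdjoinRoot.isDomain_of_prime (f_irr p).prime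

/-- `x` -/
noncomputable def x : R p := AdjoinRoot.of (f p) (MvPolynomial.X 0)
/-- `y` -/
noncomputable def y : R p := AdjoinRoot.of (f p) (MvPolynomial.X 1)
/-- `z` -/
noncomputable def z : R p := AdjoinRoot.root (f p)

theorem z_pow : z p ^ p = x p ^ (p + 1) + y p ^ (p + 1) := by
  have h := AdjoinRoot.eval₂_root (f p)
  unfold f at h
  rw [Polynomial.eval₂_sub, Polynomial.eval₂_pow, Polynomial.eval₂_X, Polynomial.eval₂_C,
    sub_eq_zero] at h
  unfold x y z
  rw [← map_pow, ← map_pow, ← map_add]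
  exact h

instance : CharP (R p) p :=
  charP_of_injective_algebraMap
    (FaithfulSMul.algebraMap_injective (ZMod p) (R p)) p

/-- evaluation at the origin -/
noncomputable def φ : R p →+* ZMod p :=
  AdjoinRoot.lift (MvPolynomial.constantCoeff) 0 (by
    unfold f g
    rw [Polynomial.eval₂_sub, Polynomial.eval₂_pow, Polynomial.eval₂_X, Polynomial.eval₂_C,
      map_add, map_pow, map_pow, MvPolynomial.constantCoeff_X, MvPolynomial.constantCoeff_X,
      zero_pow hpp.out.ne_zero, zero_pow (Nat.succ_ne_zero p), add_zero, sub_zero])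

theorem φ_x : φ p (x p) = 0 := by
  unfold φ x
  rw [AdjoinRoot.lift_of, MvPolynomial.constantCoeff_X]

theorem φ_y : φ p (y p) = 0 := by
  unfold φ y
  rw [AdjoinRoot.lift_of, MvPolynomial.constantCoeff_X]

theorem φ_z : φ p (z p) = 0 := by
  unfold φ z
  rw [AdjoinRoot.lift_root]

theorem φ_algebraMap (c : ZMod p) : φ p (algebraMap (ZMod p) (R p) c) = c := by
  have h : (φ p).comp (algebraMap (ZMod p) (R p)) = RingHom.id (ZMod p) :=
    RingHom.ext_zmod _ _
  exact congrArg (fun q : ZMod p →+* ZMod p => q c) h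

/-- the ideal `(x, y, z)` -/
noncomputable def Q : Ideal (R p) := I2 (x p) (y p) ⊔ Ideal.span {z p}

theorem x_mem : x p ∈ Q p :=
  Ideal.mem_sup_left (Ideal.mem_sup_left (Ideal.mem_span_singleton_self _))
theorem y_mem : y p ∈ Q p :=
  Ideal.mem_sup_left (Ideal.mem_sup_right (Ideal.mem_span_singleton_self _))
theorem z_mem : z p ∈ Q p := Ideal.mem_sup_right (Ideal.mem_span_singleton_self _)

theorem Q_le : Q p ≤ RingHom.ker (φ p) := by
  unfold Q I2
  refine sup_le (sup_le ?_ ?_) ?_ <;> rw [Ideal.span_singleton_le_iff_mem, RingHom.mem_ker]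
  · exact φ_x p
  · exact φ_y p
  · exact φ_z p

theorem exists_const_B (b : B p) :
    ∃ c : ZMod p, AdjoinRoot.of (f p) b - algebraMap (ZMod p) (R p) c ∈ Q p := by
  induction b using MvPolynomial.induction_on with
  | C a =>
    refine ⟨a, ?_⟩
    have : AdjoinRoot.of (f p) (MvPolynomial.C a) = algebraMap (ZMod p) (R p) a := rfl
    rw [this, sub_self]
    exact zero_mem _
  | add a b ha hb =>
    obtain ⟨c, hc⟩ := ha
    obtain ⟨d, hd⟩ := hb
    refine ⟨c + d, ?_⟩
    rw [map_add, map_add, add_sub_add_comm]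
    exact add_mem hc hd
  | mul_X a i ha =>
    refine ⟨0, ?_⟩
    rw [map_zero, sub_zero, map_mul]
    refine Ideal.mul_mem_left _ _ ?_
    fin_cases i
    · exact x_mem p
    · exact y_mem p

theorem exists_const (r : R p) :
    ∃ c : ZMod p, r - algebraMap (ZMod p) (R p) c ∈ Q p := by
  obtain ⟨q, rfl⟩ := AdjoinRoot.mk_surjective r
  induction q using Polynomial.induction_on' with
  | add a b ha hb =>
    obtain ⟨c, hc⟩ := ha
    obtain ⟨d, hd⟩ := hb
    refine ⟨c + d, ?_⟩
    rw [map_add, map_add, add_sub_add_comm]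
    exact add_mem hc hd
  | monomial n a =>
    rcases Nat.eq_zero_or_pos n with rfl | hn
    · obtain ⟨c, hc⟩ := exists_const_B p a
      refine ⟨c, ?_⟩
      rw [Polynomial.monomial_zero_left, AdjoinRoot.mk_C]
      exact hc
    · refine ⟨0, ?_⟩
      rw [map_zero, sub_zero, ← Polynomial.C_mul_X_pow_eq_monomial, map_mul, map_pow,
        AdjoinRoot.mk_X]
      exact Ideal.mul_mem_left _ _ (Ideal.pow_mem_of_mem _ (z_mem p) _ hn)

theorem ker_eq : RingHom.ker (φ p) = Q p := by
  refine le_antisymm ?_ (Q_le p)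
  intro r hr
  obtain ⟨c, hc⟩ := exists_const p r
  have h1 := Q_le p hc
  rw [RingHom.mem_ker] at hr h1
  rw [map_sub, hr, φ_algebraMap, zero_sub, neg_eq_zero] at h1
  rw [h1, map_zero, sub_zero] at hc
  exact hc

instance : (Q p).IsPrime := ker_eq p ▸ RingHom.ker_isPrime (φ p)

/-! ### regularity -/

/-- the coordinates -/
noncomputable def bas : Module.Basis (Fin (f p).natDegree) (B p) (R p) :=
  (AdjoinRoot.powerBasis' (f_monic p)).basis

theorem smul_x (r : R p) : x p * r = (MvPolynomial.X 0 : B p) • r := by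
  rw [Algebra.smul_def]; rfl

theorem smul_y (r : R p) : y p * r = (MvPolynomial.X 1 : B p) • r := by
  rw [Algebra.smul_def]; rfl

theorem not_dvd : ¬ (MvPolynomial.X 0 : B p) ∣ MvPolynomial.X 1 := by
  rw [MvPolynomial.X_dvd_X]
  exact fun h => absurd h (by decide)

theorem natDegree_f : (f p).natDegree = p := Polynomial.natDegree_X_pow_sub_C

theorem of_inj : Function.Injective (AdjoinRoot.of (f p)) := by
  refine AdjoinRoot.of.injective_of_degree_ne_zero ?_
  intro h
  have h1 := Polynomial.natDegree_eq_zero_iff_degree_le_zero.2 h.le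
  rw [natDegree_f] at h1
  exact hpp.out.ne_zero h1

theorem x_ne_zero : x p ≠ 0 := by
  intro h
  unfold x at h
  rw [map_eq_zero_iff _ (of_inj p)] at h
  exact MvPolynomial.X_ne_zero (R := ZMod p) (0 : Fin 2) h

theorem reg : Reg2 (x p) (y p) := by
  refine ⟨fun a ha => (mul_eq_zero.1 ha).resolve_left (x_ne_zero p), ?_⟩
  intro a ha
  obtain ⟨b, hb⟩ := Ideal.mem_span_singleton.1 ha
  rw [smul_x, smul_y] at hb
  have h1 : ∀ i, (MvPolynomial.X 0 : B p) ∣ (bas p).repr a i := by
    intro i
    have h2 := congrArg (fun r => (bas p).repr r i) hb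
    simp only [map_smul, Finsupp.smul_apply, smul_eq_mul] at h2
    have h3 : (MvPolynomial.X 0 : B p) ∣ MvPolynomial.X 1 * (bas p).repr a i :=
      Dvd.intro _ h2.symm
    exact ((MvPolynomial.X_prime (i := (0 : Fin 2))).dvd_or_dvd h3).resolve_left (not_dvd p)
  choose c hc using h1
  rw [Ideal.mem_span_singleton]
  refine ⟨∑ i, c i • bas p i, ?_⟩
  rw [smul_x, Finset.smul_sum]
  conv_lhs => rw [← (bas p).sum_repr a]
  refine Finset.sum_congr rfl fun i _ => ?_
  rw [hc i, mul_smul]

theorem coord_mem (i : Fin (f p).natDegree) (r : R p) (hr : r ∈ I2 (x p) (y p)) :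
    MvPolynomial.constantCoeff ((bas p).repr r i) = 0 := by
  obtain ⟨a, ha, b, hb, rfl⟩ := Submodule.mem_sup.1 hr
  obtain ⟨c, rfl⟩ := Ideal.mem_span_singleton.1 ha
  obtain ⟨d, rfl⟩ := Ideal.mem_span_singleton.1 hb
  rw [smul_x, smul_y, map_add, map_smul, map_smul, Finsupp.add_apply, Finsupp.smul_apply,
    Finsupp.smul_apply, smul_eq_mul, smul_eq_mul, map_add, map_mul, map_mul,
    MvPolynomial.constantCoeff_X, MvPolynomial.constantCoeff_X, zero_mul, zero_mul, add_zero]

theorem z_notMem : z p ^ (p - 1) ∉ I2 (x p) (y p) := by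
  intro h
  have hlt : p - 1 < (f p).natDegree := by
    rw [natDegree_f]
    have := hpp.out.pos
    omega
  have h1 := coord_mem p ⟨p - 1, hlt⟩ _ h
  have h2 : z p ^ (p - 1) = bas p ⟨p - 1, hlt⟩ := by
    unfold bas
    exact ((AdjoinRoot.powerBasis' (f_monic p)).basis_eq_pow ⟨p - 1, hlt⟩).symm
  rw [h2, Module.Basis.repr_self, Finsupp.single_eq_same, map_one] at h1
  exact one_ne_zero h1

theorem zp_mem : z p ^ p ∈ I2 (x p) (y p) := by
  rw [z_pow]
  exact Ideal.add_mem _
    (Ideal.mem_sup_left (Ideal.pow_mem_of_mem _ (Ideal.mem_span_singleton_self _) _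
      (Nat.succ_pos _)))
    (Ideal.mem_sup_right (Ideal.pow_mem_of_mem _ (Ideal.mem_span_singleton_self _) _
      (Nat.succ_pos _)))

theorem mul_z_mem (q : R p) (hq : q ∈ Q p) : q * z p ^ (p - 1) ∈ I2 (x p) (y p) := by
  obtain ⟨a, ha, b, hb, rfl⟩ := Submodule.mem_sup.1 hq
  obtain ⟨c, rfl⟩ := Ideal.mem_span_singleton.1 hb
  rw [add_mul]
  refine add_mem (Ideal.mul_mem_right _ _ ha) ?_
  have h1 : z p * c * z p ^ (p - 1) = c * z p ^ p := by
    have h2 : p = p - 1 + 1 := by
      have := hpp.out.pos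
      omega
    have h3 : z p ^ p = z p ^ (p - 1) * z p := by
      rw [← pow_succ]
      exact congrArg (fun n => z p ^ n) h2
    rw [h3]
    ring
  rw [h1]
  exact Ideal.mul_mem_left _ _ (zp_mem p)

theorem mul_notMem (s : R p) (hs : s ∉ Q p) : s * z p ^ (p - 1) ∉ I2 (x p) (y p) := by
  intro h
  obtain ⟨c, hc⟩ := exists_const p s
  have hc0 : c ≠ 0 := by
    rintro rfl
    rw [map_zero, sub_zero] at hc
    exact hs hc
  have h1 := mul_z_mem p _ hc
  have h2 := sub_mem h h1
  have h3 : s * z p ^ (p - 1) - (s - algebraMap (ZMod p) (R p) c) * z p ^ (p - 1) =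
      algebraMap (ZMod p) (R p) c * z p ^ (p - 1) := by ring
  rw [h3, Ideal.unit_mul_mem_iff_mem _ ((Ne.isUnit hc0).map (algebraMap (ZMod p) (R p)))] at h2
  exact z_notMem p h2

/-! ### F-finiteness of `R` -/

theorem frob_finite : (frobenius (R p) p).Finite := by
  rw [RingHom.finite_iff_isIntegral_and_finiteType]
  constructor
  · intro r
    refine ⟨Polynomial.X ^ p - Polynomial.C r, Polynomial.monic_X_pow_sub_C r hpp.out.ne_zero, ?_⟩
    rw [Polynomial.eval₂_sub, Polynomial.eval₂_pow, Polynomial.eval₂_X, Polynomial.eval₂_C,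
      frobenius_def, sub_self]
  · have h1 : ((frobenius (R p) p).comp (algebraMap (ZMod p) (R p))).FiniteType := by
      have h2 : (frobenius (R p) p).comp (algebraMap (ZMod p) (R p)) =
        algebraMap (ZMod p) (R p) := RingHom.ext_zmod _ _
      rw [h2, RingHom.finiteType_algebraMap]
      infer_instance
    exact RingHom.FiniteType.of_comp_finiteType h1

/-! ### the local ring -/

/-- the localization at the origin -/
abbrev L : Type := Localization.AtPrime (Q p)

theorem le_nzd : (Q p).primeCompl ≤ nonZeroDivisors (R p) :=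
  Ideal.primeCompl_le_nonZeroDivisors _

instance : IsDomain (L p) := IsLocalization.isDomain_localization (le_nzd p)

theorem inj : Function.Injective (algebraMap (R p) (L p)) :=
  IsLocalization.injective (L p) (le_nzd p)

instance : IsNoetherianRing (R p) := inferInstance

instance : IsNoetherianRing (L p) := IsLocalization.isNoetherianRing (Q p).primeCompl _ inferInstance

instance : CharP (L p) p := charP_of_injective_algebraMap (inj p) p

theorem I2_map : I2 (algebraMap (R p) (L p) (x p)) (algebraMap (R p) (L p) (y p)) =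
    (I2 (x p) (y p)).map (algebraMap (R p) (L p)) := by
  unfold I2
  rw [Ideal.map_sup, Ideal.map_span, Ideal.map_span, Set.image_singleton, Set.image_singleton]

theorem Q_map : (Q p).map (algebraMap (R p) (L p)) =
    (I2 (x p) (y p)).map (algebraMap (R p) (L p)) ⊔ Ideal.span {algebraMap (R p) (L p) (z p)} := by
  have h : ∀ J : Ideal (R p), J = I2 (x p) (y p) ⊔ Ideal.span {z p} →
      J.map (algebraMap (R p) (L p)) = (I2 (x p) (y p)).map (algebraMap (R p) (L p)) ⊔
        Ideal.span {algebraMap (R p) (L p) (z p)} := by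
    rintro J rfl
    rw [Ideal.map_sup, Ideal.map_span, Set.image_singleton]
  exact h _ rfl

/-- the local ring is as in the abstract situation -/
noncomputable def T : Sit (L p) p where
  x := algebraMap (R p) (L p) (x p)
  y := algebraMap (R p) (L p) (y p)
  z := algebraMap (R p) (L p) (z p)
  reg := by
    have hx0 : algebraMap (R p) (L p) (x p) ≠ 0 := by
      intro h
      rw [map_eq_zero_iff _ (inj p)] at h
      exact x_ne_zero p h
    refine ⟨fun a ha => (mul_eq_zero.1 ha).resolve_left hx0, ?_⟩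
    intro a ha
    obtain ⟨b, hb⟩ := Ideal.mem_span_singleton.1 ha
    obtain ⟨⟨r, s⟩, hr⟩ := IsLocalization.surj (Q p).primeCompl a
    obtain ⟨⟨r', s'⟩, hr'⟩ := IsLocalization.surj (Q p).primeCompl b
    have h1 : y p * (r * s') = x p * (r' * s) := by
      apply inj p
      simp only [map_mul]
      simp only at hr hr'
      rw [← hr, ← hr']
      linear_combination (algebraMap (R p) (L p) s * algebraMap (R p) (L p) s') * hb
    have h2 : r * s' ∈ Ideal.span {x p} := (reg p).hy _ (by
      rw [h1]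
      exact Ideal.mul_mem_right _ _ (Ideal.mem_span_singleton_self _))
    obtain ⟨d, hd⟩ := Ideal.mem_span_singleton.1 h2
    have h3 : a * algebraMap (R p) (L p) (s * s') =
        algebraMap (R p) (L p) (x p) * algebraMap (R p) (L p) d := by
      rw [← map_mul, ← hd, map_mul, map_mul]
      simp only at hr
      rw [← hr]
      ring
    have h4 : IsUnit (algebraMap (R p) (L p) (s * s')) :=
      IsLocalization.map_units (L p) (s * s')
    rw [← Ideal.mul_unit_mem_iff_mem _ h4, h3]
    exact Ideal.mul_mem_right _ _ (Ideal.mem_span_singleton_self _)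
  hm := by
    rw [← IsLocalization.AtPrime.map_eq_maximalIdeal (Q p) (L p), I2_map, Q_map]
  hz := by
    rw [← map_pow, z_pow, map_add, map_pow, map_pow]
  hnot := by
    rw [I2_map, ← map_pow, IsLocalization.mem_map_algebraMap_iff (Q p).primeCompl]
    rintro ⟨⟨⟨i, hi⟩, ⟨s, hs⟩⟩, h⟩
    simp only [← map_mul] at h
    have h1 := inj p h
    refine mul_notMem p s hs ?_
    rw [mul_comm, h1]
    exact hi

/-! ### F-finiteness of `L` -/

/-- the identity map `A → F^e_* A` -/
def toF (A : Type) [CommRing A] (e : ℕ) : A ≃+ FrobPush A p e := AddEquiv.refl A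

theorem smul_toF {A : Type} [CommRing A] [ExpChar A p] (a b : A) :
    a • toF p A 1 b = toF p A 1 (a ^ p * b) := by
  change (iterateFrobenius A p 1 a * b : A) = (a ^ p * b : A)
  rw [iterateFrobenius_one_apply]

theorem finite_R : Module.Finite (R p) (FrobPush (R p) p 1) := by
  have h := frob_finite p
  have e : iterateFrobenius (R p) p 1 = frobenius (R p) p := RingHom.ext fun r => by
    rw [iterateFrobenius_one_apply, frobenius_def]
  rw [← e] at h
  exact h

/-- the natural map `F_* R → F_* L` -/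
noncomputable def G : FrobPush (R p) p 1 →+ FrobPush (L p) p 1 :=
  (toF p (L p) 1).toAddMonoidHom.comp
    ((algebraMap (R p) (L p)).toAddMonoidHom.comp (toF p (R p) 1).symm.toAddMonoidHom)

theorem G_toF (r : R p) : G p (toF p (R p) 1 r) = toF p (L p) 1 (algebraMap (R p) (L p) r) := rfl

theorem G_smul (a : R p) (m : FrobPush (R p) p 1) :
    G p (a • m) = algebraMap (R p) (L p) a • G p m := by
  obtain ⟨b, rfl⟩ := (toF p (R p) 1).surjective m
  rw [smul_toF, G_toF, G_toF, smul_toF, map_mul, map_pow]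

theorem ffinite : FFinite (L p) p := by
  obtain ⟨⟨S, hS⟩⟩ := finite_R p
  unfold FFinite
  refine ⟨Submodule.fg_def.2 ⟨(G p) '' S, S.finite_toSet.image _, ?_⟩⟩
  have h1 : ∀ r : FrobPush (R p) p 1, G p r ∈ Submodule.span (L p) ((G p) '' S) := by
    intro r
    have hr : r ∈ Submodule.span (R p) (S : Set (FrobPush (R p) p 1)) := by
      rw [hS]; trivial
    induction hr using Submodule.span_induction with
    | mem r hr => exact Submodule.subset_span ⟨r, hr, rfl⟩
    | zero =>
      rw [map_zero]
      exact zero_mem _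
    | add a b _ _ ha hb =>
      rw [map_add]
      exact add_mem ha hb
    | smul a b _ hb =>
      rw [G_smul]
      exact Submodule.smul_mem _ _ hb
  rw [eq_top_iff]
  intro m _
  obtain ⟨a, rfl⟩ := (toF p (L p) 1).surjective m
  obtain ⟨⟨r, s⟩, hr⟩ := IsLocalization.surj (Q p).primeCompl a
  obtain ⟨u, hu⟩ := (IsLocalization.map_units (L p) s).exists_left_inv
  simp only at hr
  have h2 : toF p (L p) 1 a = u • G p (toF p (R p) 1 (s ^ (p - 1) * r)) := by
    rw [G_toF, smul_toF]
    congr 1
    have h3 : u ^ p = u ^ (p - 1) * u := by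
      rw [← pow_succ]
      congr 1
      have := hpp.out.pos
      omega
    rw [map_mul, map_pow, ← hr, h3]
    have h4 : u ^ (p - 1) * u * (algebraMap (R p) (L p) s ^ (p - 1) *
      (a * algebraMap (R p) (L p) s)) =
      (u * algebraMap (R p) (L p) s) ^ (p - 1) * (u * algebraMap (R p) (L p) s) * a := by
      rw [mul_pow]; ring
    rw [h4, hu, one_pow, one_mul, one_mul]
  rw [h2]
  exact Submodule.smul_mem _ _ (h1 _)

/-! ### the residue field -/

/-- the map from the prime field to the residue field -/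
noncomputable def ρ : ZMod p →+* ResidueField (L p) :=
  (residue (L p)).comp ((algebraMap (R p) (L p)).comp (algebraMap (ZMod p) (R p)))

theorem ρ_eq (r : R p) : ∃ c : ZMod p, residue (L p) (algebraMap (R p) (L p) r) = ρ p c := by
  obtain ⟨c, hc⟩ := exists_const p r
  refine ⟨c, ?_⟩
  have h1 : algebraMap (R p) (L p) (r - algebraMap (ZMod p) (R p) c) ∈ maximalIdeal (L p) := by
    rw [← IsLocalization.AtPrime.map_eq_maximalIdeal (Q p) (L p)]
    exact Ideal.mem_map_of_mem _ hc
  have h2 := (residue_eq_zero_iff _).2 h1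
  rw [map_sub, map_sub, sub_eq_zero] at h2
  exact h2

theorem ρ_surj (b : ResidueField (L p)) : ∃ c : ZMod p, ρ p c = b := by
  obtain ⟨a, rfl⟩ := residue_surjective b
  obtain ⟨⟨r, s⟩, hr⟩ := IsLocalization.surj (Q p).primeCompl a
  obtain ⟨c, hc⟩ := ρ_eq p r
  obtain ⟨d, hd⟩ := ρ_eq p s
  refine ⟨c / d, ?_⟩
  have h1 : residue (L p) (algebraMap (R p) (L p) s) ≠ 0 := by
    rw [residue_ne_zero_iff_isUnit]
    exact IsLocalization.map_units (L p) s
  have h2 := congrArg (residue (L p)) hr
  simp only [map_mul] at h2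
  rw [map_div₀, ← hc, ← hd, div_eq_iff h1]
  exact h2.symm

instance : CharP (ResidueField (L p)) p := charP_of_injective_ringHom (ρ p).injective p

theorem finrank_res : Module.finrank (ResidueField (L p))
    (FrobPush (ResidueField (L p)) p 1) = 1 := by
  refine finrank_eq_one (toF p (ResidueField (L p)) 1 1) ?_ ?_
  · exact (map_ne_zero_iff _ (toF p (ResidueField (L p)) 1).injective).2 one_ne_zero
  · intro w
    obtain ⟨w, rfl⟩ := (toF p (ResidueField (L p)) 1).surjective w
    refine ⟨w, ?_⟩
    rw [smul_toF]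
    obtain ⟨c, hc⟩ := ρ_surj p w
    rw [← hc, mul_one, ← map_pow, ZMod.pow_card]

end Conc

/-- for every prime `p ≥ 3` there is a counterexample of characteristic and multiplicity `p` -/
theorem main (p : ℕ) (hp : p.Prime) (h3 : 3 ≤ p) :
    ∃ (A : Type) (_ : CommRing A) (_ : IsDomain A) (_ : IsLocalRing A) (_ : IsNoetherianRing A)
      (_ : CharP A p) (_ : ExpChar A p) (_ : ExpChar (ResidueField A) p),
      FFinite A p ∧ IsGor A ∧ ringKrullDim A = 2 ∧
      IsMult A 2 p ∧ IsHKMult A p 2 p ∧ IsFSig A p 2 0 := by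
  haveI : Fact p.Prime := ⟨hp⟩
  refine ⟨Conc.L p, inferInstance, inferInstance, inferInstance, inferInstance, inferInstance,
    inferInstance, inferInstance, Conc.ffinite p, (Conc.T p).gor (by omega), (Conc.T p).dim_eq,
    (Conc.T p).mult (by omega), (Conc.T p).hk, (Conc.T p).fsig (Conc.finrank_res p)⟩

end Pool.Agent.R688.HK
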