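import Mathlib

set_option autoImplicit false

/-!
# Hilbert-Kunz multiplicity, F-signature: definitions
-/

open IsLocalRing Filter Topology

namespace Pool.Agent.R688.HK

/-- `F^e_* A`: the additive group of `A` as an `A`-module through the `e`-th Frobenius. -/
def FrobPush (A : Type) [CommRing A] (_p _e : ℕ) : Type := A

section

variable (A : Type) [CommRing A] (p e : ℕ)

instance : AddCommGroup (FrobPush A p e) := inferInstanceAs (AddCommGroup A)

/-- `a • F^e_* b = F^e_* (a ^ (p ^ e) * b)` -/
instance [ExpChar A p] : Module A (FrobPush A p e) :=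
  Module.compHom A (iterateFrobenius A p e)

/-- `A` is F-finite: `F_* A` is a finitely generated `A`-module -/
def FFinite [ExpChar A p] : Prop := Module.Finite A (FrobPush A p 1)

/-- the largest rank `a_e` of a free quotient (equivalently, of a free direct summand) of
`F^e_* A` -/
noncomputable def frank [ExpChar A p] : ℕ :=
  sSup {a : ℕ | ∃ φ : FrobPush A p e →ₗ[A] (Fin a → A), Function.Surjective φ}

end

section

variable (A : Type) [CommRing A] [IsLocalRing A]

/-- `A` is Gorenstein: some regular sequence of length `dim A` in the maximal ideal generates an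
irreducible ideal, i.e. there is a least ideal properly containing it. -/
def IsGor : Prop := ∃ rs : List A, (∀ r ∈ rs, r ∈ maximalIdeal A) ∧
  RingTheory.Sequence.IsWeaklyRegular A rs ∧ (rs.length : WithBot ℕ∞) = ringKrullDim A ∧
  ∃ K : Ideal A, Ideal.ofList rs < K ∧ ∀ K' : Ideal A, Ideal.ofList rs < K' → K ≤ K'

/-- the Hilbert-Samuel multiplicity (with respect to the maximal ideal) of `A`, a ring of
dimension `d`, is `c` -/
def IsMult (d : ℕ) (c : ℝ) : Prop :=
  Tendsto (fun n : ℕ => (d.factorial : ℝ) * (Module.length A (A ⧸ maximalIdeal A ^ n)).toNat /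
    (n : ℝ) ^ d) atTop (𝓝 c)

/-- the Hilbert-Kunz multiplicity of `A`, a ring of dimension `d`, is `c` -/
def IsHKMult (p : ℕ) [ExpChar A p] (d : ℕ) (c : ℝ) : Prop :=
  Tendsto (fun e : ℕ => ((Module.length A
    (A ⧸ (maximalIdeal A).map (iterateFrobenius A p e))).toNat : ℝ) / ((p : ℝ) ^ e) ^ d)
    atTop (𝓝 c)

/-- the F-signature of `A`, a ring of dimension `d` with residue field `k`, is `c`; here
`[k : k ^ p] = p ^ α` -/
def IsFSig (p : ℕ) [ExpChar A p] [ExpChar (ResidueField A) p] (d : ℕ) (c : ℝ) : Prop :=
  ∃ α : ℕ, Module.finrank (ResidueField A) (FrobPush (ResidueField A) p 1) = p ^ α ∧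
    Tendsto (fun e : ℕ => (frank A p e : ℝ) / (p : ℝ) ^ (e * (d + α))) atTop (𝓝 c)

end

end Pool.Agent.R688.HK
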