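import Pool.Agent.R688.HK.Defs

set_option autoImplicit false

/-!
# Lengths of quotients by ideals generated by powers of a regular sequence
-/

open IsLocalRing

namespace Pool.Agent.R688.HK

variable {A : Type} [CommRing A]

/-- the length of a quotient -/
noncomputable abbrev len (I : Ideal A) : ℕ∞ := Module.length A (A ⧸ I)

/-- the basic exact sequence `0 → A / (I : r) → A / I → A / (I + (r)) → 0` -/
theorem len_eq (I J : Ideal A) (r : A) (hJ : ∀ a, a ∈ J ↔ r * a ∈ I) :
    len I = len J + len (I ⊔ Ideal.span {r}) := by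
  let f : (A ⧸ J) →ₗ[A] (A ⧸ I) := Submodule.mapQ J I (LinearMap.lsmul A A r)
    (fun a ha => (hJ a).1 ha)
  let g : (A ⧸ I) →ₗ[A] (A ⧸ (I ⊔ Ideal.span {r})) := Submodule.factor le_sup_left
  have hf : Function.Injective f := by
    rw [injective_iff_map_eq_zero]
    intro a ha
    obtain ⟨a, rfl⟩ := Submodule.Quotient.mk_surjective J a
    have h1 : (Submodule.Quotient.mk (r * a) : A ⧸ I) = 0 := ha
    rw [Submodule.Quotient.mk_eq_zero] at h1 ⊢
    exact (hJ a).2 h1
  have hg : Function.Surjective g := by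
    intro a
    obtain ⟨a, rfl⟩ := Submodule.Quotient.mk_surjective _ a
    exact ⟨Submodule.Quotient.mk a, rfl⟩
  have hfg : Function.Exact f g := by
    intro a
    obtain ⟨a, rfl⟩ := Submodule.Quotient.mk_surjective _ a
    constructor
    · intro h
      have h1 : (Submodule.Quotient.mk a : A ⧸ (I ⊔ Ideal.span {r})) = 0 := h
      rw [Submodule.Quotient.mk_eq_zero, Submodule.mem_sup] at h1
      obtain ⟨i, hi, b, hb, rfl⟩ := h1
      obtain ⟨c, rfl⟩ := Ideal.mem_span_singleton.1 hb
      refine ⟨Submodule.Quotient.mk c, ?_⟩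
      change (Submodule.Quotient.mk (r * c) : A ⧸ I) = Submodule.Quotient.mk (i + r * c)
      rw [Submodule.Quotient.eq]
      have : r * c - (i + r * c) = - i := by ring
      rw [this]
      exact neg_mem hi
    · rintro ⟨b, hb⟩
      obtain ⟨b, rfl⟩ := Submodule.Quotient.mk_surjective _ b
      have h1 : (Submodule.Quotient.mk (r * b) : A ⧸ I) = Submodule.Quotient.mk a := hb
      rw [Submodule.Quotient.eq] at h1
      change (Submodule.Quotient.mk a : A ⧸ (I ⊔ Ideal.span {r})) = 0
      rw [Submodule.Quotient.mk_eq_zero]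
      have : a = - (r * b - a) + r * b := by ring
      rw [this]
      exact Ideal.add_mem _ (neg_mem (Ideal.mem_sup_left h1))
        (Ideal.mul_mem_right _ _ (Ideal.mem_sup_right (Ideal.mem_span_singleton_self r)))
  exact Module.length_eq_add_of_exact f g hf hg hfg

theorem len_top : len (⊤ : Ideal A) = 0 := by
  have : Subsingleton (A ⧸ (⊤ : Ideal A)) := Ideal.Quotient.subsingleton_iff.2 rfl
  exact Module.length_eq_zero

theorem len_anti {I J : Ideal A} (h : I ≤ J) : len J ≤ len I :=
  Module.length_le_of_surjective (Submodule.factor h) (by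
    intro a
    obtain ⟨a, rfl⟩ := Submodule.Quotient.mk_surjective _ a
    exact ⟨Submodule.Quotient.mk a, rfl⟩)

/-- `x` is a nonzerodivisor and `y` is a nonzerodivisor modulo `x` -/
structure Reg2 (x y : A) : Prop where
  hx : ∀ a, x * a = 0 → a = 0
  hy : ∀ a, y * a ∈ Ideal.span {x} → a ∈ Ideal.span {x}

variable {x y : A}

theorem Reg2.y_pow (h : Reg2 x y) (n : ℕ) (a : A) (ha : y ^ n * a ∈ Ideal.span {x}) :
    a ∈ Ideal.span {x} := by
  induction n with
  | zero => simpa using ha
  | succ n ih =>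
    apply ih
    apply h.hy
    rwa [← mul_assoc, ← pow_succ']

theorem Reg2.x_mod (h : Reg2 x y) (n : ℕ) (a : A) (ha : x * a ∈ Ideal.span {y ^ n}) :
    a ∈ Ideal.span {y ^ n} := by
  obtain ⟨c, hc⟩ := Ideal.mem_span_singleton.1 ha
  have h1 : c ∈ Ideal.span {x} := h.y_pow n c (by
    rw [← hc]; exact Ideal.mul_mem_right _ _ (Ideal.mem_span_singleton_self x))
  obtain ⟨d, rfl⟩ := Ideal.mem_span_singleton.1 h1
  have h2 : x * (a - y ^ n * d) = 0 := by rw [mul_sub, hc]; ring
  have h3 := h.hx _ h2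
  rw [sub_eq_zero] at h3
  rw [h3]
  exact Ideal.mul_mem_right _ _ (Ideal.mem_span_singleton_self _)

theorem mem_pair {a b c : A} : c ∈ Ideal.span {a} ⊔ Ideal.span {b} ↔ ∃ u v, c = a * u + b * v := by
  rw [Submodule.mem_sup]
  constructor
  · rintro ⟨d, hd, e, he, rfl⟩
    obtain ⟨u, rfl⟩ := Ideal.mem_span_singleton.1 hd
    obtain ⟨v, rfl⟩ := Ideal.mem_span_singleton.1 he
    exact ⟨u, v, rfl⟩
  · rintro ⟨u, v, rfl⟩
    exact ⟨_, Ideal.mul_mem_right _ _ (Ideal.mem_span_singleton_self a), _,
      Ideal.mul_mem_right _ _ (Ideal.mem_span_singleton_self b), rfl⟩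

/-- `ℓ (A / (x, y ^ n)) = n ℓ (A / (x, y))` -/
theorem Reg2.len_y (h : Reg2 x y) (n : ℕ) :
    len (Ideal.span {x} ⊔ Ideal.span {y ^ n}) = n * len (Ideal.span {x} ⊔ Ideal.span {y}) := by
  induction n with
  | zero =>
    have : Ideal.span {x} ⊔ Ideal.span {y ^ 0} = (⊤ : Ideal A) := by
      rw [pow_zero, Ideal.span_singleton_one, sup_top_eq]
    rw [this, len_top]; simp
  | succ n ih =>
    rw [len_eq _ (Ideal.span {x} ⊔ Ideal.span {y ^ n}) y (fun a => ?_), ih]
    · have h1 : Ideal.span {x} ⊔ Ideal.span {y ^ (n + 1)} ⊔ Ideal.span {y} =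
          Ideal.span {x} ⊔ Ideal.span {y} := by
        rw [sup_assoc]
        congr 1
        rw [sup_eq_right, Ideal.span_singleton_le_span_singleton, pow_succ]
        exact Dvd.intro_left _ rfl
      rw [h1]
      push_cast
      ring
    · rw [mem_pair, mem_pair]
      constructor
      · rintro ⟨u, v, rfl⟩
        exact ⟨y * u, v, by ring⟩
      · rintro ⟨u, v, huv⟩
        have h1 : y * (a - y ^ n * v) ∈ Ideal.span {x} := by
          rw [mul_sub, huv]
          have : x * u + y ^ (n + 1) * v - y * (y ^ n * v) = x * u := by ring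
          rw [this]
          exact Ideal.mul_mem_right _ _ (Ideal.mem_span_singleton_self x)
        obtain ⟨c, hc⟩ := Ideal.mem_span_singleton.1 (h.hy _ h1)
        exact ⟨c, v, by rw [← hc]; ring⟩

/-- `ℓ (A / (x ^ a, y ^ b)) = a b ℓ (A / (x, y))` -/
theorem Reg2.len_xy (h : Reg2 x y) (m n : ℕ) :
    len (Ideal.span {x ^ m} ⊔ Ideal.span {y ^ n}) =
      m * (n * len (Ideal.span {x} ⊔ Ideal.span {y})) := by
  induction m with
  | zero =>
    have : Ideal.span {x ^ 0} ⊔ Ideal.span {y ^ n} = (⊤ : Ideal A) := by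
      rw [pow_zero, Ideal.span_singleton_one, top_sup_eq]
    rw [this, len_top]; simp
  | succ m ih =>
    rw [len_eq _ (Ideal.span {x ^ m} ⊔ Ideal.span {y ^ n}) x (fun a => ?_), ih]
    · have h1 : Ideal.span {x ^ (m + 1)} ⊔ Ideal.span {y ^ n} ⊔ Ideal.span {x} =
          Ideal.span {x} ⊔ Ideal.span {y ^ n} := by
        rw [sup_comm, ← sup_assoc]
        congr 1
        rw [sup_eq_left, Ideal.span_singleton_le_span_singleton, pow_succ]
        exact Dvd.intro_left _ rfl
      rw [h1, h.len_y]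
      push_cast
      ring
    · rw [mem_pair, mem_pair]
      constructor
      · rintro ⟨u, v, rfl⟩
        exact ⟨u, x * v, by ring⟩
      · rintro ⟨u, v, huv⟩
        have h1 : x * (a - x ^ m * u) ∈ Ideal.span {y ^ n} := by
          rw [mul_sub, huv]
          have : x ^ (m + 1) * u + y ^ n * v - x * (x ^ m * u) = y ^ n * v := by ring
          rw [this]
          exact Ideal.mul_mem_right _ _ (Ideal.mem_span_singleton_self _)
        obtain ⟨c, hc⟩ := Ideal.mem_span_singleton.1 (h.x_mod n _ h1)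
        exact ⟨u, c, by rw [← hc]; ring⟩

/-- the ideal `(x, y)` -/
def I2 (x y : A) : Ideal A := Ideal.span {x} ⊔ Ideal.span {y}

theorem I2_pow (x y : A) (n : ℕ) :
    I2 x y ^ (n + 1) = Ideal.span {x} * I2 x y ^ n ⊔ Ideal.span {y ^ (n + 1)} := by
  induction n with
  | zero => unfold I2; simp
  | succ n ih =>
    conv_lhs => rw [pow_succ', ih]
    conv_lhs => rw [show I2 x y = Ideal.span {x} ⊔ Ideal.span {y} from rfl]
    rw [Ideal.sup_mul, Ideal.mul_sup, Ideal.mul_sup]
    apply le_antisymm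
    · refine sup_le (sup_le ?_ ?_) (sup_le ?_ ?_)
      · refine le_sup_of_le_left (Ideal.mul_mono_right ?_)
        rw [ih]; exact le_sup_left
      · refine le_sup_of_le_left (Ideal.mul_mono_right ?_)
        rw [ih]; exact le_sup_right
      · refine le_sup_of_le_left ?_
        rw [mul_left_comm]
        refine Ideal.mul_mono_right ?_
        rw [pow_succ']
        refine Ideal.mul_mono_left ?_
        exact le_sup_right
      · refine le_sup_of_le_right ?_
        rw [Ideal.span_singleton_mul_span_singleton, ← pow_succ']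
    · refine sup_le ?_ ?_
      · rw [ih, Ideal.mul_sup]
        exact le_sup_left
      · refine le_sup_of_le_right (le_sup_of_le_right ?_)
        rw [Ideal.span_singleton_mul_span_singleton, ← pow_succ']

/-- `(x, y) ^ (n + 1) : x = (x, y) ^ n` -/
theorem Reg2.colon (h : Reg2 x y) (n : ℕ) (a : A) :
    a ∈ I2 x y ^ n ↔ x * a ∈ I2 x y ^ (n + 1) := by
  constructor
  · intro ha
    rw [pow_succ']
    exact Ideal.mul_mem_mul (Ideal.mem_sup_left (Ideal.mem_span_singleton_self x)) ha
  · intro ha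
    rw [I2_pow, Submodule.mem_sup] at ha
    obtain ⟨b, hb, c, hc, hbc⟩ := ha
    obtain ⟨b', hb', rfl⟩ := Ideal.mem_span_singleton_mul.1 hb
    obtain ⟨c', rfl⟩ := Ideal.mem_span_singleton.1 hc
    have h1 : x * (a - b') ∈ Ideal.span {y ^ (n + 1)} := by
      rw [mul_sub, ← hbc]
      have : x * b' + y ^ (n + 1) * c' - x * b' = y ^ (n + 1) * c' := by ring
      rw [this]
      exact Ideal.mul_mem_right _ _ (Ideal.mem_span_singleton_self _)
    have h2 := h.x_mod _ _ h1
    have h3 : Ideal.span {y ^ (n + 1)} ≤ I2 x y ^ n := by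
      rw [Ideal.span_singleton_le_iff_mem, pow_succ]
      refine Ideal.mul_mem_right _ _ (Ideal.pow_mem_pow ?_ n)
      exact Ideal.mem_sup_right (Ideal.mem_span_singleton_self y)
    have h4 := Ideal.add_mem _ (h3 h2) hb'
    rwa [sub_add_cancel] at h4

/-- `2 ℓ (A / (x, y) ^ n) = n (n + 1) ℓ (A / (x, y))` -/
theorem Reg2.len_pow (h : Reg2 x y) (n : ℕ) :
    2 * len (I2 x y ^ n) = n * (n + 1) * len (I2 x y) := by
  induction n with
  | zero =>
    rw [pow_zero, Ideal.one_eq_top, len_top]; simp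
  | succ n ih =>
    rw [len_eq _ (I2 x y ^ n) x (h.colon n), mul_add, ih]
    have h1 : I2 x y ^ (n + 1) ⊔ Ideal.span {x} = Ideal.span {x} ⊔ Ideal.span {y ^ (n + 1)} := by
      rw [I2_pow]
      apply le_antisymm
      · refine sup_le (sup_le ?_ le_sup_right) le_sup_left
        exact le_sup_of_le_left Ideal.mul_le_left
      · exact sup_le le_sup_right (le_sup_of_le_left le_sup_right)
    rw [h1, h.len_y]
    change _ + 2 * (((n + 1 : ℕ) : ℕ∞) * len (I2 x y)) = _
    push_cast
    ring

end Pool.Agent.R688.HK
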